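import Pool.Agent.Y503.RB.Def2

/-!
# The pushed surface
-/

set_option autoImplicit false

namespace Pool.Agent.Y31.RB

open scoped ContDiff RealInnerProductSpace ENNReal Topology
open MeasureTheory Set Metric
open Pool.Agent.Y503.RB

/-- restriction of a patch -/
theorem bpatch_mono {φ : ℂ → E4} {U U₀ : Set ℂ} (h : BPatch φ U) (h0 : IsOpen U₀) (hU : U₀ ⊆ U) :
    BPatch φ U₀ where
  isOpen := h0
  smooth := h.smooth.mono hU
  imm := fun z hz => h.imm z (hU hz)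
  emb := h.emb.comp (Topology.IsEmbedding.inclusion hU)
  trans := fun z hz => h.trans z (hU hz)

theorem surf_of (hTh : St_THETA) (hD : St_DIFFEO) (hB : St_BP) : St_SURF := by
  intro ξ F hξ hF hξF
  obtain ⟨hop, hmem, hpull, hn⟩ := hD ξ hξ
  have hFne : ∀ p ∈ F, p ≠ ξ := fun p hp h => hξF (h ▸ hp)
  have hpc : ContinuousOn (pull ξ) (pdom ξ) := fun w hw =>
    ((hpull w hw).2.2.continuousAt).continuousWithinAt
  have hV' : ∀ V : Set E4, IsOpen V → IsOpen (pdom ξ ∩ pull ξ ⁻¹' V) := fun V hV =>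
    hpc.isOpen_inter_preimage hop hV
  have hpp : ∀ x : E4, x ≠ ξ → pull ξ (push ξ x) = x := fun x hx => (hTh ξ hξ x hx).2.2.1
  have key : ∀ V : Set E4, push ξ '' F ∩ (pdom ξ ∩ pull ξ ⁻¹' V) = push ξ '' (F ∩ V) := by
    intro V
    ext w
    constructor
    · rintro ⟨⟨p, hp, rfl⟩, _, h2⟩
      refine ⟨p, ⟨hp, ?_⟩, rfl⟩
      have h3 : pull ξ (push ξ p) ∈ V := h2
      rwa [hpp p (hFne p hp)] at h3
    · rintro ⟨p, ⟨hp, hpV⟩, rfl⟩
      refine ⟨⟨p, hp, rfl⟩, hmem p (hFne p hp), ?_⟩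
      show pull ξ (push ξ p) ∈ V
      rw [hpp p (hFne p hp)]
      exact hpV
  refine ⟨⟨?_, ?_, ?_⟩, ?_, ?_⟩
  · apply hF.compact.image_of_continuousOn
    intro p hp
    exact ((hTh ξ hξ p (hFne p hp)).2.2.2.1.continuousAt).continuousWithinAt
  · rintro _ ⟨p, hp, rfl⟩
    have h1 := hF.sub hp
    rw [mem_closedBall, dist_zero_right] at h1 ⊢
    exact ((hn p (hFne p hp)).1).2 h1
  · rintro _ ⟨p, hp, rfl⟩
    obtain ⟨φ, U, V, hφ, hV, hpV, hFV⟩ := hF.loc p hp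
    have hU0 : IsOpen (U ∩ φ ⁻¹' {ξ}ᶜ) :=
      hφ.smooth.continuousOn.isOpen_inter_preimage hφ.isOpen isOpen_compl_singleton
    have hφ0 : BPatch φ (U ∩ φ ⁻¹' {ξ}ᶜ) := bpatch_mono hφ hU0 inter_subset_left
    have hne0 : ∀ z ∈ U ∩ φ ⁻¹' {ξ}ᶜ, φ z ≠ ξ := fun z hz => hz.2
    refine ⟨fun w => push ξ (φ w), U ∩ φ ⁻¹' {ξ}ᶜ, pdom ξ ∩ pull ξ ⁻¹' V,
      hB ξ φ _ hξ hφ0 hne0, hV' V hV, ⟨hmem p (hFne p hp), ?_⟩, ?_⟩
    · show pull ξ (push ξ p) ∈ V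
      rw [hpp p (hFne p hp)]
      exact hpV
    · rw [key V]
      ext w
      constructor
      · rintro ⟨x, hx, rfl⟩
        have hxF : x ∈ F := hx.1
        have hx2 : x ∈ φ '' U ∩ closedBall 0 1 := hFV ▸ hx
        obtain ⟨⟨z, hz, rfl⟩, hx3⟩ := hx2
        refine ⟨⟨z, ⟨hz, hFne _ hxF⟩, rfl⟩, ?_⟩
        rw [mem_closedBall, dist_zero_right] at hx3 ⊢
        exact ((hn (φ z) (hFne _ hxF)).1).2 hx3
      · rintro ⟨⟨z, hz, rfl⟩, hw⟩
        refine ⟨φ z, ?_, rfl⟩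
        rw [hFV]
        refine ⟨⟨z, hz.1, rfl⟩, ?_⟩
        rw [mem_closedBall, dist_zero_right] at hw ⊢
        exact ((hn (φ z) hz.2).1).1 hw
  · ext w
    constructor
    · rintro ⟨⟨p, hp, rfl⟩, hw⟩
      rw [mem_sphere, dist_zero_right] at hw
      have h1 : ‖p‖ = 1 := ((hn p (hFne p hp)).2.2).1 hw
      have h2 : push ξ p = p := (hTh ξ hξ p (hFne p hp)).2.1 h1
      rw [h2]
      refine ⟨hp, ?_⟩
      rw [mem_sphere, dist_zero_right]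
      exact h1
    · rintro ⟨hp, hw⟩
      refine ⟨⟨w, hp, ?_⟩, hw⟩
      rw [mem_sphere, dist_zero_right] at hw
      exact (hTh ξ hξ w (hFne w hp)).2.1 hw
  · intro φ U V hV hFV _
    refine ⟨pdom ξ ∩ pull ξ ⁻¹' V, hV' V hV, ?_⟩
    rw [key V, hFV, image_image]

end Pool.Agent.Y31.RB
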